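import Mathlib
import Pool.Agent.Helper384.BpAll

set_option autoImplicit false
open Classical

namespace Pool.Agent.Results.MP_3a7cda_pr.SharpExponent

/-- `S` is closed under the `r`-neighbour rule of the cube: every vertex having at least `r`
neighbours (vertices at Hamming distance one) in `S` lies in `S`. -/
def Closed {d : ℕ} (r : ℕ) (S : Finset (Fin d → Bool)) : Prop :=
  ∀ v : Fin d → Bool, r ≤ (S.filter (fun u => hammingDist u v = 1)).card → v ∈ S

/-- `A` percolates: the only closed superset of `A` is the whole cube. -/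
def Percolates {d : ℕ} (r : ℕ) (A : Finset (Fin d → Bool)) : Prop :=
  ∀ S : Finset (Fin d → Bool), A ⊆ S → Closed r S → S = Finset.univ

/-- the probability that the `p`-random subset of the `d`-cube percolates -/
noncomputable def percProb (d r : ℕ) (p : ℝ) : ℝ :=
  ∑ A : Finset (Fin d → Bool),
    if Percolates r A then p ^ A.card * (1 - p) ^ (2 ^ d - A.card) else 0

/-- the critical probability of the `r`-neighbour process on the `d`-cube -/
noncomputable def pc (d r : ℕ) : ℝ := sInf {p : ℝ | 0 ≤ p ∧ p ≤ 1 ∧ 1 / 2 ≤ percProb d r p}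

theorem percProb_eq (d r : ℕ) (p : ℝ) :
    percProb d r p = Pool.Agent.Helper384.Bp.percProb d r p := by
  unfold percProb Pool.Agent.Helper384.Bp.percProb
  refine Finset.sum_congr rfl ?_
  intro A _
  by_cases hA : Percolates r A
  · have hA' : ∀ S : Finset (Fin d → Bool), A ⊆ S → Pool.Agent.Helper384.Bp.Closed r S →
        S = Finset.univ := fun S h1 h2 => hA S h1 h2
    rw [if_pos hA, if_pos hA']
  · have hA' : ¬ ∀ S : Finset (Fin d → Bool), A ⊆ S → Pool.Agent.Helper384.Bp.Closed r S →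
        S = Finset.univ := fun h => hA (fun S h1 h2 => h S h1 h2)
    rw [if_neg hA, if_neg hA']

theorem percProb_one (d r : ℕ) : percProb d r 1 = 1 := by
  rw [percProb_eq]; exact Pool.Agent.Helper384.Bp.percProb_one d r

theorem percProb_zero (d r : ℕ) (hr : 1 ≤ r) : percProb d r 0 = 0 := by
  unfold percProb
  refine Finset.sum_eq_zero ?_
  intro A _
  split_ifs with hA
  · rcases Finset.eq_empty_or_nonempty A with h | h
    · exfalso
      subst h
      have h1 : (∅ : Finset (Fin d → Bool)) = Finset.univ := by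
        refine hA ∅ (Finset.Subset.refl _) ?_
        intro v hv
        simp at hv
        omega
      have h2 : (fun _ => true : Fin d → Bool) ∈ (∅ : Finset (Fin d → Bool)) := by
        rw [h1]; exact Finset.mem_univ _
      simp at h2
    · have : A.card ≠ 0 := (Finset.card_pos.2 h).ne'
      rw [zero_pow this, zero_mul]
  · rfl

theorem percProb_cont (d r : ℕ) : Continuous (percProb d r) := by
  unfold percProb
  refine continuous_finsetSum _ ?_
  intro A _
  by_cases hA : Percolates r A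
  · simp only [hA, if_true]
    fun_prop
  · simp only [hA, if_false]
    exact continuous_const

theorem exists_half (d r : ℕ) (hr : 1 ≤ r) (q : ℝ) (hq0 : 0 ≤ q) (hq : 1 / 2 ≤ percProb d r q) :
    ∃ p : ℝ, 0 ≤ p ∧ p ≤ q ∧ percProb d r p = 1 / 2 := by
  have h1 : (1 / 2 : ℝ) ∈ Set.Icc (percProb d r 0) (percProb d r q) := by
    rw [percProb_zero d r hr]; exact ⟨by norm_num, hq⟩
  obtain ⟨p, hp, hp2⟩ := intermediate_value_Icc hq0 (percProb_cont d r).continuousOn h1
  exact ⟨p, hp.1, hp.2, hp2⟩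

/-- For every fixed `r ≥ 1` the critical probability of `r`-neighbour bootstrap percolation on
the `d`-dimensional cube is `exp (-Θ (d ^ (1 / 2 ^ (r - 1))))`. -/
theorem result : ∀ r : ℕ, 1 ≤ r → ∃ c C : ℝ, 0 < c ∧ 0 < C ∧ ∃ d₀ : ℕ, ∀ d : ℕ, d₀ ≤ d →
    Real.exp (-(C * (d : ℝ) ^ ((1 : ℝ) / 2 ^ (r - 1)))) ≤ pc d r ∧
      pc d r ≤ Real.exp (-(c * (d : ℝ) ^ ((1 : ℝ) / 2 ^ (r - 1)))) := by
  intro r hr
  obtain ⟨C, hC, h1⟩ := Pool.Agent.Helper384.Bp.lower_all r hr
  obtain ⟨c, hc, d₀, h2⟩ := Pool.Agent.Helper384.Bp.upper_all r hr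
  refine ⟨c, C, hc, hC, max d₀ 1, fun d hd => ⟨?_, ?_⟩⟩
  · unfold pc
    refine le_csInf ⟨1, by norm_num, le_refl _, by rw [percProb_one]; norm_num⟩ ?_
    rintro q ⟨hq0, hq1, hq⟩
    obtain ⟨p, hp0, hpq, hp⟩ := exists_half d r hr q hq0 hq
    rw [percProb_eq] at hp
    exact (h1 d (le_trans (le_max_right _ _) hd) p hp0 hp).trans hpq
  · obtain ⟨p, hp0, hp1, hp⟩ := exists_half d r hr 1 (by norm_num)
      (by rw [percProb_one]; norm_num)
    have h3 : pc d r ≤ p := csInf_le ⟨0, fun x hx => hx.1⟩ ⟨hp0, hp1, hp.symm.le⟩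
    rw [percProb_eq] at hp
    exact h3.trans (h2 d (le_trans (le_max_left _ _) hd) p hp0 hp1 hp)

end Pool.Agent.Results.MP_3a7cda_pr.SharpExponent
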